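import Pool.Agent.helper21.OE.SpecA

/-!
# MP_2e0e07_nt, project OE, row FIX: `Γ₀(n)` has finite index
-/

set_option autoImplicit false

namespace Pool.Agent.OE

open Matrix

/-- coordinates modulo `n` -/
def FIX_res (d t : ℤ) (n : ℕ) (γ : GO d t) : Fin 2 → Fin 2 → ZMod n × ZMod n :=
  fun i j => (((γ.val i j).re : ZMod n), ((γ.val i j).im : ZMod n))

theorem FIX_dvd (d t : ℤ) (n : ℕ) (z w : Oz d t) (h1 : ((z.re : ℤ) : ZMod n) = ((w.re : ℤ) : ZMod n))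
    (h2 : ((z.im : ℤ) : ZMod n) = ((w.im : ℤ) : ZMod n)) : ((n : ℕ) : Oz d t) ∣ z - w := by
  rw [ZMod.intCast_eq_intCast_iff_dvd_sub] at h1 h2
  obtain ⟨a, ha⟩ := h1
  obtain ⟨b, hb⟩ := h2
  refine ⟨⟨-a, -b⟩, ?_⟩
  ext
  · simp; linarith
  · simp; linarith

theorem FIX : FIX_stmt := by
  intro d t n hn
  classical
  have : NeZero n := ⟨hn⟩
  let c : (Fin 2 → Fin 2 → ZMod n × ZMod n) → GO d t :=
    fun r => if h : ∃ γ, FIX_res d t n γ = r then h.choose else 1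
  refine ⟨Finset.univ.image c, fun γ => ?_⟩
  have hc : FIX_res d t n (c (FIX_res d t n γ)) = FIX_res d t n γ := by
    have h : ∃ γ', FIX_res d t n γ' = FIX_res d t n γ := ⟨γ, rfl⟩
    simp only [c, dif_pos h]
    exact h.choose_spec
  obtain ⟨δ, hδ⟩ : ∃ δ, δ = c (FIX_res d t n γ) := ⟨_, rfl⟩
  rw [← hδ] at hc
  refine ⟨δ, by rw [hδ]; exact Finset.mem_image_of_mem _ (Finset.mem_univ _), γ * δ⁻¹, ?_,
    by group⟩
  have hd : ∀ i j, ((n : ℕ) : Oz d t) ∣ (γ.val - δ.val) i j := by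
    intro i j
    have h := congrFun (congrFun hc i) j
    simp only [FIX_res, Prod.mk.injEq] at h
    exact FIX_dvd d t n _ _ h.1.symm h.2.symm
  have hk : (γ * δ⁻¹).val 1 0 = ((γ.val - δ.val) * (δ⁻¹).val) 1 0 := by
    rw [Matrix.sub_mul, Matrix.sub_apply]
    have h1 : δ.val * (δ⁻¹).val = 1 := by
      rw [← Units.val_mul, mul_inv_cancel]; rfl
    rw [h1]
    simp
  rw [hk, Matrix.mul_apply]
  exact Finset.dvd_sum fun i _ => (hd 1 i).mul_right _

end Pool.Agent.OE
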